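import Pool.Agent.Helper29K9.Cham.Even
import Pool.Agent.Y296.CB.Dens

/-!
# Which of the two known cycles attracts which critical point of Chamberland's map

`f` is Chamberland's real extension of the `3x+1` map `T`, and `c n` is its critical point near the
positive integer `n`.  We determine the fate of all critical points whose orbits are known to follow the
`T`-orbit of `n` for all time.

* For odd `n` the critical point `c n` is attracted by the cycle `A₂ = {1.1925..., 2.1386...}` if and only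
  if `n = 1, 3, 5`, and by the cycle `A₁ = {1, 2}` if and only if `n ≥ 7` and the `T`-orbit of `n` reaches
  `1`.  In particular the `3x+1` conjecture holds if and only if all `c n`, `n ≥ 7` odd, are attracted by
  `A₁`.
* If `T^k m ≤ 5 m` for all `k`, then `c (2 m)` is not attracted by `A₂`, and it is attracted by `A₁` if and
  only if the `T`-orbit of `m` reaches `1`.

Idea: an orbit in the trap intervals `[n, n + 5/(6(2n+1))]` which comes from an odd integer does not meet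
multiples of three later on, so that seven steps before its arrival at `1` it is near `13`, `40` or `128`
(or it starts at `21`), and interval arithmetic shows that it arrives at `1` in `[1, 1.02]`, below the
point `1.03...` of period two that separates the basins.  An orbit which follows from below changes sides
only at an even integer which is larger than `3 m`, hence at least seven steps before the arrival at `1`.
-/

set_option autoImplicit false

namespace Pool.Agent.Results.MP_a247fa_nt.CriticalFates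

open Filter Topology

/-- Chamberland's map. -/
noncomputable def f (x : ℝ) : ℝ := x + 1 / 4 - (2 * x + 1) / 4 * Real.cos (Real.pi * x)

/-- The `3x+1` map. -/
def T (n : ℕ) : ℕ := if n % 2 = 0 then n / 2 else (3 * n + 1) / 2

/-- `y` is a point of an attracting cycle of `f` contained in `(0,∞)`. -/
def AttractingPoint (y : ℝ) : Prop :=
  0 < y ∧ 0 < Function.minimalPeriod f y ∧ |deriv (f^[Function.minimalPeriod f y]) y| < 1

/-- The orbit of `x` converges to the cycle of `y`. -/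
def Attracts (y x : ℝ) : Prop :=
  ∃ j : ℕ, Tendsto (fun k : ℕ => f^[k * Function.minimalPeriod f y + j] x) atTop (𝓝 y)

/-- The set of positive integers with the property `P` has natural density `d`. -/
def HasDensity (P : ℕ → Prop) (d : ℝ) : Prop :=
  Tendsto (fun N : ℕ => ({n : ℕ | 1 ≤ n ∧ n ≤ N ∧ P n}.ncard : ℝ) / N) atTop (𝓝 d)

/-- **Main theorem.** There are `a ∈ [1.19, 1.196]` and `c 1, c 2, …` with
(1) `f (f a) = a`, and `1, 2, a, f a` are points of attracting cycles;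
(2) `c n` is the only critical point of `f` at distance less than `1/2` from `n`, and the `c n` are all
critical points of `f` in `(0,∞)`;
(3) for odd `n`: `c n` is attracted by the cycle of `a` iff `n ∈ {1, 3, 5}`, and by the cycle `{1, 2}` iff
`n ≥ 7` and the `3x+1` orbit of `n` reaches `1`;
(4) if `T^k m ≤ 5 m` for all `k`: `c (2 m)` is not attracted by the cycle of `a`, and it is attracted by
`{1, 2}` iff the `3x+1` orbit of `m` reaches `1`;
(5) the `3x+1` conjecture holds iff all `c n`, `n ≥ 7` odd, are attracted by `{1, 2}`;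
(6) if `δ > 0` is the density of the `n` whose `3x+1` orbit reaches `1`, then for a set of `n` of density
`κ δ`, `κ ≥ 9/10`, the critical point `c n` is attracted by `{1, 2}`. -/
theorem result : ∃ (a : ℝ) (c : ℕ → ℝ),
    (a ∈ Set.Icc (1.19 : ℝ) 1.196 ∧ f (f a) = a ∧
      ∀ y, y = 1 ∨ y = 2 ∨ y = a ∨ y = f a → AttractingPoint y) ∧
    (∀ n : ℕ, 1 ≤ n → |c n - n| < 1 / 2 ∧ deriv f (c n) = 0 ∧
      ∀ x : ℝ, |x - n| < 1 / 2 → deriv f x = 0 → x = c n) ∧
    (∀ x : ℝ, 0 < x → deriv f x = 0 → ∃ n : ℕ, 1 ≤ n ∧ x = c n) ∧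
    (∀ n : ℕ, n % 2 = 1 →
      (Attracts a (c n) ↔ n = 1 ∨ n = 3 ∨ n = 5) ∧
      (Attracts 1 (c n) ↔ 7 ≤ n ∧ ∃ k : ℕ, T^[k] n = 1)) ∧
    (∀ m : ℕ, 1 ≤ m → (∀ k, T^[k] m ≤ 5 * m) →
      ¬ Attracts a (c (2 * m)) ∧ (Attracts 1 (c (2 * m)) ↔ ∃ k : ℕ, T^[k] m = 1)) ∧
    ((∀ n : ℕ, 1 ≤ n → ∃ k : ℕ, T^[k] n = 1) ↔
      ∀ n : ℕ, n % 2 = 1 → 7 ≤ n → Attracts 1 (c n)) ∧
    ∃ (δ κ : ℝ) (G : ℕ → Prop), 0 < δ ∧ HasDensity (fun n => ∃ k : ℕ, T^[k] n = 1) δ ∧
      9 / 10 ≤ κ ∧ κ ≤ 1 ∧ HasDensity G (κ * δ) ∧ ∀ n : ℕ, 7 ≤ n → G n → Attracts 1 (c n) := by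
  classical
  obtain ⟨a, ha, hga⟩ := Pool.Agent.H934R2.Ch.exists_a2
  have hc : ∀ n : ℕ, ∃ c : ℝ, 1 ≤ n → |c - n| < 1 / 2 ∧ deriv f c = 0 ∧
      ∀ x : ℝ, |x - n| < 1 / 2 → deriv f x = 0 → x = c := by
    intro n
    by_cases hn : 1 ≤ n
    · obtain ⟨c, ⟨h1, h2⟩, h3⟩ := Pool.Agent.Y296.CB.crit_unique hn
      exact ⟨c, fun _ => ⟨h1, h2, fun x hx1 hx2 => h3 x ⟨hx1, hx2⟩⟩⟩
    · exact ⟨0, fun h => absurd h hn⟩
  choose c hc using hc
  have hodd : ∀ n : ℕ, n % 2 = 1 → (n : ℝ) < c n ∧ c n < n + 1 / 2 := by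
    intro n hn
    obtain ⟨h1, h2, h3⟩ := hc n (by omega)
    obtain ⟨x, ⟨hx1, hx2, hx3⟩, -⟩ := Pool.Agent.H934R2.Ch.exists_unique_odd n hn
    have := h3 x (by rw [abs_lt]; constructor <;> linarith) hx3
    rw [← this]
    exact ⟨hx1, hx2⟩
  have hO : ∀ n : ℕ, n % 2 = 1 →
      (Attracts a (c n) ↔ n = 1 ∨ n = 3 ∨ n = 5) ∧
      (Attracts 1 (c n) ↔ 7 ≤ n ∧ ∃ k : ℕ, T^[k] n = 1) := by
    intro n hn
    obtain ⟨h1, h2⟩ := hodd n hn
    exact Pool.Agent.Helper29K9.Cham.odd_fate ha hga hn h1 h2 (hc n (by omega)).2.1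
  have hE : ∀ m : ℕ, 1 ≤ m → (∀ k, T^[k] m ≤ 5 * m) →
      ¬ Attracts a (c (2 * m)) ∧ (Attracts 1 (c (2 * m)) ↔ ∃ k : ℕ, T^[k] m = 1) := by
    intro m hm hT
    obtain ⟨h1, h2, -⟩ := hc (2 * m) (by omega)
    obtain ⟨h3, h4⟩ := Pool.Agent.Helper29K9.Cham.even_fate ha hga hm hT h1 h2
    exact ⟨h4, h3⟩
  have hhalf : ∀ n : ℕ, n % 2 = 0 → T n = n / 2 := by
    intro n h
    unfold T
    rw [if_pos h]
  have hall : (∀ n : ℕ, n % 2 = 1 → 7 ≤ n → ∃ k, T^[k] n = 1) → ∀ n : ℕ, 1 ≤ n → ∃ k : ℕ, T^[k] n = 1 := by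
    intro h n
    induction n using Nat.strong_induction_on with
    | _ n ih =>
      intro hn
      rcases Nat.mod_two_eq_zero_or_one n with h1 | h1
      · obtain ⟨k, hk⟩ := ih (n / 2) (by omega) (by omega)
        refine ⟨k + 1, ?_⟩
        rw [Function.iterate_succ_apply, hhalf n h1]
        exact hk
      · by_cases h7 : 7 ≤ n
        · exact h n h1 h7
        · have : n = 1 ∨ n = 3 ∨ n = 5 := by omega
          rcases this with rfl | rfl | rfl
          · exact ⟨0, rfl⟩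
          · exact ⟨5, by decide⟩
          · exact ⟨4, by decide⟩
  refine ⟨a, c, ⟨ha, hga, fun y h => Pool.Agent.H934R2.Ch.known_attr ha hga h⟩, hc, ?_, hO, hE,
    ⟨fun h n hn h7 => (hO n hn).2.2 ⟨h7, h n (by omega)⟩,
      fun h => hall fun n hn h7 => ((hO n hn).2.1 (h n hn h7)).2⟩, ?_⟩
  · intro x hx h
    obtain ⟨n, hn, h1⟩ := Pool.Agent.H934R2.Ch.crit_class hx h
    rcases h1 with ⟨h1, h2⟩ | ⟨h1, h2⟩
    · refine ⟨n, by omega, (hc n (by omega)).2.2 x ?_ h⟩
      rw [abs_lt]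
      constructor <;> linarith
    · refine ⟨n + 1, by omega, (hc (n + 1) (by omega)).2.2 x ?_ h⟩
      push_cast
      rw [abs_lt]
      constructor <;> linarith
  · obtain ⟨δ, κ, h0, h1, h2, h3, h4, h5, h6⟩ := Pool.Agent.Y296.CB.DD.dens_good
    refine ⟨δ, κ, _, h0, h3, h4, h5, h6, ?_⟩
    rintro n hn ⟨⟨k, hk⟩, h7⟩
    have hk' : T^[k] n = 1 := hk
    rcases Nat.mod_two_eq_zero_or_one n with h8 | h8
    · obtain ⟨m, rfl⟩ : ∃ m, n = 2 * m := ⟨n / 2, by omega⟩
      have e : 2 * m / 2 = m := by omega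
      have h9 : ∀ k, T^[k] m ≤ 5 * m := by
        rcases h7 with h7 | h7
        · omega
        · rw [e] at h7
          exact h7
      refine (hE m (by omega) h9).2.2 ?_
      rcases k with _ | k
      · have : 2 * m = 1 := hk'
        omega
      · rw [Function.iterate_succ_apply, hhalf _ h8, e] at hk'
        exact ⟨k, hk'⟩
    · exact (hO n h8).2.2 ⟨hn, k, hk'⟩

end Pool.Agent.Results.MP_a247fa_nt.CriticalFates
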