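import Pool.Agent.Helper69K9.PS.Cls
import Pool.Agent.Helper69K9.PS.Low
import Pool.Agent.TH930.PS.Three
import Pool.Agent.Helper29K9.Cham.Odd

/-!
# The critical points of Chamberland's map above the numbers `⌊n ^ c⌋`

`f` is Chamberland's real extension of the `3x+1` map `T`. The critical point `C m` of `f` above an odd
integer `m` follows the `T`-orbit of `m` for all time, so the property of `f`-orbits to follow finally a
`T`-orbit inside a given `T`-invariant set `S` (for example: to be attracted by the cycle `{1, 2}`) holds for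
`C m` if and only if `m ∈ S`.

Let `1 < c < 101/100`. Among the critical points `C ⌊n ^ c⌋`, `⌊n ^ c⌋` odd and in any given progression to a
modulus up to a small power of `X`, `n ≤ X`, the share with such a fate is the natural density of `S`; the
fates are not correlated with the phases `e(α ⌊n ^ c⌋)`; and if for infinitely many `X` and one progression
(with modulus `X ^ o(1)`) almost all of these critical points are attracted by `{1, 2}`, then the `3x+1`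
conjecture holds.

For all but `K X / y ^ ρ` of the `n ≤ X` with `⌊n ^ c⌋` odd the orbit of `C ⌊n ^ c⌋` has a term at most
`y + 1`.

The proof combines the theorem on the critical points above odd integers (starting library, and
`MP_a247fa_nt.CriticalFates`) with the distribution of the numbers `⌊n ^ c⌋` in the invariant sets
(`MP_7f88e4_nt.PiatetskiShapiroProgressions`).
-/

set_option autoImplicit false

namespace Pool.Agent.Results.MP_a247fa_nt.CriticalPointsAlongPowers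

open Filter Topology

/-- Chamberland's map -/
noncomputable def f (x : ℝ) : ℝ := x + 1 / 4 - (2 * x + 1) / 4 * Real.cos (Real.pi * x)

/-- the `3x+1` map -/
def T (n : ℕ) : ℕ := if n % 2 = 0 then n / 2 else (3 * n + 1) / 2

/-- `y` is a point of an attracting cycle of `f` contained in `(0,∞)` -/
def AttractingPoint (y : ℝ) : Prop :=
  0 < y ∧ 0 < Function.minimalPeriod f y ∧ |deriv (f^[Function.minimalPeriod f y]) y| < 1

/-- the orbit of `x` converges to the cycle of `y` -/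
def Attracts (y x : ℝ) : Prop :=
  ∃ j : ℕ, Tendsto (fun k : ℕ => f^[k * Function.minimalPeriod f y + j] x) atTop (𝓝 y)

/-- the `f`-orbit of `x` follows the `T`-orbit of `m` -/
def Shadows (x : ℝ) (m : ℕ) : Prop :=
  ∀ k : ℕ, |f^[k] x - T^[k] m| ≤ 5 / (6 * (2 * (T^[k] m : ℝ) + 1))

/-- the `f`-orbit of `x` follows, from some time on, the `T`-orbit of an element of `S` -/
def Fate (S : Set ℕ) (x : ℝ) : Prop := ∃ k m : ℕ, 1 ≤ m ∧ m ∈ S ∧ Shadows (f^[k] x) m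

/-- `S` is invariant under `T` and its inverse -/
def Invariant (S : Set ℕ) : Prop := ∀ n : ℕ, 1 ≤ n → (n ∈ S ↔ T n ∈ S)

/-- `S` has the natural density `δ` -/
def HasDensity (S : Set ℕ) (δ : ℝ) : Prop :=
  Tendsto (fun N : ℕ => ({n : ℕ | 1 ≤ n ∧ n ≤ N ∧ n ∈ S}.ncard : ℝ) / N) atTop (𝓝 δ)

/-- the integers whose `3x+1` orbit reaches `1` -/
def reach : Set ℕ := {m | ∃ k : ℕ, T^[k] m = 1}

/-- the number of the `n ≤ X` with `⌊n ^ c⌋ ≡ b` modulo `q` and `P ⌊n ^ c⌋` -/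
noncomputable def count (c : ℝ) (q b : ℕ) (P : ℕ → Prop) (X : ℕ) : ℕ :=
  {n : ℕ | 1 ≤ n ∧ n ≤ X ∧ ⌊(n : ℝ) ^ c⌋₊ ≡ b [MOD q] ∧ P ⌊(n : ℝ) ^ c⌋₊}.ncard

/-- `exp (2 π i x)` -/
noncomputable def e (x : ℝ) : ℂ := Complex.exp (2 * Real.pi * x * Complex.I)

/-! ### proofs -/

open Pool.Agent.W41 Pool.Agent.H499R2.ND Pool.Agent.W36.FD Pool.Agent.Helper82K9.GK Pool.Agent.Y965.PS
  Pool.Agent.Helper82K9.PM Pool.Agent.Helper69K9.PS Finset

/-- `S` as a set of integers -/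
def Sz (S : Set ℕ) : Set ℤ := {x : ℤ | 0 < x ∧ x.toNat ∈ S}

theorem mem_Sz (S : Set ℕ) {m : ℕ} (hm : 1 ≤ m) : (m : ℤ) ∈ Sz S ↔ m ∈ S := by
  unfold Sz
  simp only [Set.mem_ofPred_eq, Int.toNat_natCast]
  constructor
  · exact fun h => h.2
  · exact fun h => ⟨by omega, h⟩

theorem inv_Sz {S : Set ℕ} (hS : Invariant S) : Inv 1 (Sz S) := by
  intro x
  rcases lt_or_ge 0 x with hx | hx
  · obtain ⟨m, rfl⟩ : ∃ m : ℕ, x = m := ⟨x.toNat, by omega⟩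
    have hm : 1 ≤ m := by omega
    have h1 : Td 1 (m : ℤ) = (T m : ℕ) := by
      unfold Td T
      by_cases h : m % 2 = 0
      · rw [if_pos (by omega), if_pos h]
        omega
      · rw [if_neg (by omega), if_neg h]
        omega
    have h2 : 1 ≤ T m := by
      unfold T
      split_ifs <;> omega
    rw [h1, mem_Sz S hm, mem_Sz S h2]
    exact hS m hm
  · have h1 : ¬ 0 < Td 1 x := by
      unfold Td
      split_ifs <;> omega
    constructor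
    · intro h
      exact absurd h.1 (by omega)
    · intro h
      exact absurd h.1 h1

theorem ncard_Sz (S : Set ℕ) (a : ℤ) (N : ℕ) : cA 1 (Sz S) 1 a N = {n : ℕ | 1 ≤ n ∧ n ≤ N ∧ n ∈ S}.ncard := by
  classical
  unfold cA
  rw [← Set.ncard_coe_finset]
  congr 1
  ext n
  simp only [coe_filter, mem_Icc, Set.mem_ofPred_eq, one_mul]
  constructor
  · rintro ⟨⟨h1, h2⟩, h3, -⟩
    exact ⟨h1, h2, (mem_Sz S h1).1 h3⟩
  · rintro ⟨h1, h2, h3⟩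
    refine ⟨⟨h1, h2⟩, (mem_Sz S h1).2 h3, ?_⟩
    rw [Nat.cast_one]
    exact Int.modEq_one

theorem dens_nonneg {S : Set ℕ} {δ : ℝ} (h : HasDensity S δ) : 0 ≤ δ ∧ δ ≤ 1 := by
  constructor
  · exact ge_of_tendsto' h fun N => by positivity
  · refine le_of_tendsto' h fun N => ?_
    have h1 : {n : ℕ | 1 ≤ n ∧ n ≤ N ∧ n ∈ S}.ncard ≤ N := by
      have h2 : {n : ℕ | 1 ≤ n ∧ n ≤ N ∧ n ∈ S} ⊆ (Icc 1 N : Finset ℕ) := by
        rintro n ⟨h1, h2, -⟩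
        simp only [coe_Icc, Set.mem_Icc]
        exact ⟨h1, h2⟩
      have h3 := Set.ncard_le_ncard h2 (Finset.finite_toSet _)
      rwa [Set.ncard_coe_finset, Nat.card_Icc, Nat.add_sub_cancel] at h3
    rcases Nat.eq_zero_or_pos N with rfl | hN
    · simp
    · rw [div_le_one (by exact_mod_cast hN)]
      exact_mod_cast h1

theorem phi_Sz {S : Set ℕ} {δ : ℝ} (h : HasDensity S δ) : IsPhi 1 1 (Sz S) (fun _ => δ) := by
  refine ⟨fun _ => dens_nonneg h, fun _ _ _ => rfl, ?_⟩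
  intro a
  have h1 : (1 : ℤ).natAbs = 1 := rfl
  simp only [h1, Nat.cast_one, div_one, ncard_Sz]
  exact h

/-- every positive integer reaches a positive one prime to `3` -/
theorem reaches_cop (n : ℕ) (hn : 1 ≤ n) : ∃ j : ℕ, 1 ≤ T^[j] n ∧ ¬ 3 ∣ T^[j] n := by
  induction n using Nat.strong_induction_on with
  | _ n ih =>
    rcases Nat.mod_two_eq_zero_or_one n with h | h
    · obtain ⟨j, h1, h2⟩ := ih (n / 2) (by omega) (by omega)
      refine ⟨j + 1, ?_⟩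
      rw [Function.iterate_succ_apply]
      have : T n = n / 2 := by unfold T; rw [if_pos h]
      rw [this]
      exact ⟨h1, h2⟩
    · refine ⟨1, ?_⟩
      rw [Function.iterate_one]
      have : T n = (3 * n + 1) / 2 := by unfold T; rw [if_neg (by omega)]
      rw [this]
      constructor <;> omega

theorem T_pos {n : ℕ} (hn : 1 ≤ n) : 1 ≤ T n := by
  unfold T
  split_ifs <;> omega

theorem Tk_pos {n : ℕ} (hn : 1 ≤ n) (k : ℕ) : 1 ≤ T^[k] n := by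
  induction k with
  | zero => exact hn
  | succ k ih =>
    rw [Function.iterate_succ_apply']
    exact T_pos ih

theorem inv_iterate {S : Set ℕ} (hS : Invariant S) {n : ℕ} (hn : 1 ≤ n) (k : ℕ) : n ∈ S ↔ T^[k] n ∈ S := by
  induction k with
  | zero => rfl
  | succ k ih =>
    rw [Function.iterate_succ_apply', ← hS _ (Tk_pos hn k)]
    exact ih

theorem exists_density {S : Set ℕ} (hS : Invariant S) :
    ∃ δ : ℝ, HasDensity S δ ∧ ((∃ m ∈ S, 1 ≤ m) → 0 < δ) := by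
  obtain ⟨φ, ⟨-, -, h3⟩, h4⟩ := exists_phi (d := 1) (Or.inl rfl) (s := 1) (Or.inl rfl) (inv_Sz hS)
  refine ⟨φ 0, ?_, ?_⟩
  · have h5 := h3 0
    have h1 : (1 : ℤ).natAbs = 1 := rfl
    simp only [h1, Nat.cast_one, div_one, ncard_Sz] at h5
    exact h5
  · rintro ⟨m, hm, h1⟩
    obtain ⟨j, hj1, hj2⟩ := reaches_cop m h1
    refine h4 0 (T^[j] m : ℕ) ((mem_Sz S hj1).2 ((inv_iterate hS h1 j).1 hm)) ?_ ?_ ⟨0, 0, ?_⟩
    · rw [one_mul]
      exact_mod_cast hj1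
    · intro h
      exact hj2 (by exact_mod_cast h)
    · exact Int.modEq_one

/-- the trap -/
theorem shadows_of {n : ℕ} (hn : 1 ≤ n) {x : ℝ}
    (h : x ∈ Set.Icc (n : ℝ) (n + Pool.Agent.H934R2.Ch.b n)) : Shadows x n := by
  have key : ∀ k : ℕ, f^[k] x ∈ Set.Icc ((T^[k] n : ℕ) : ℝ) ((T^[k] n : ℕ) + Pool.Agent.H934R2.Ch.b (T^[k] n)) := by
    intro k
    induction k with
    | zero => exact h
    | succ k ih =>
      rw [Function.iterate_succ_apply', Function.iterate_succ_apply']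
      exact Pool.Agent.H934R2.Ch.trap (Tk_pos hn k) ih
  intro k
  obtain ⟨h1, h2⟩ := key k
  have h3 : Pool.Agent.H934R2.Ch.b (T^[k] n) = 5 / (6 * (2 * ((T^[k] n : ℕ) : ℝ) + 1)) := rfl
  rw [← h3, abs_le]
  have h4 : 0 ≤ Pool.Agent.H934R2.Ch.b (T^[k] n) := by rw [h3]; positivity
  constructor <;> linarith

theorem fate_iff {S : Set ℕ} (hS : Invariant S) {n : ℕ} (hn : 1 ≤ n) {x : ℝ} (hx : Shadows x n) :
    Fate S x ↔ n ∈ S := by
  constructor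
  · rintro ⟨k, m, hm1, hm, h⟩
    have h1 := hx k
    have h2 := h 0
    simp only [Function.iterate_zero, id_eq] at h2
    have hT := Tk_pos hn k
    have b1 : 5 / (6 * (2 * ((T^[k] n : ℕ) : ℝ) + 1)) ≤ 5 / 18 := by
      have : (1 : ℝ) ≤ ((T^[k] n : ℕ) : ℝ) := by exact_mod_cast hT
      apply div_le_div_of_nonneg_left (by norm_num) (by norm_num)
      linarith
    have b2 : 5 / (6 * (2 * (m : ℝ) + 1)) ≤ 5 / 18 := by
      have : (1 : ℝ) ≤ (m : ℝ) := by exact_mod_cast hm1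
      apply div_le_div_of_nonneg_left (by norm_num) (by norm_num)
      linarith
    have h3 : T^[k] n = m := by
      obtain ⟨u1, u2⟩ := abs_le.1 (h1.trans b1)
      obtain ⟨v1, v2⟩ := abs_le.1 (h2.trans b2)
      have w1 : ((T^[k] n : ℕ) : ℝ) < m + 1 := by linarith
      have w2 : (m : ℝ) < (T^[k] n : ℕ) + 1 := by linarith
      have w1' : T^[k] n < m + 1 := by exact_mod_cast w1
      have w2' : m < T^[k] n + 1 := by exact_mod_cast w2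
      omega
    rw [inv_iterate hS hn k, h3]
    exact hm
  · intro h
    exact ⟨0, n, hn, h, hx⟩

theorem floor_cast (n : ℕ) (c : ℝ) : ((⌊(n : ℝ) ^ c⌋₊ : ℕ) : ℤ) = ⌊(n : ℝ) ^ c⌋ :=
  Int.natCast_floor_eq_floor (by positivity)

theorem le_floor {n : ℕ} (hn : 1 ≤ n) {c : ℝ} (hc : 1 < c) : n ≤ ⌊(n : ℝ) ^ c⌋₊ := by
  apply Nat.le_floor
  have h1 : (1 : ℝ) ≤ n := by exact_mod_cast hn
  calc (n : ℝ) = (n : ℝ) ^ (1 : ℝ) := (Real.rpow_one _).symm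
    _ ≤ (n : ℝ) ^ c := Real.rpow_le_rpow_of_exponent_le h1 hc.le

/-- the two ways of counting -/
theorem count_eq {c : ℝ} (hc : 1 < c) {q b : ℕ} (hq : 2 ∣ q) (hb : b % 2 = 1) {P : ℕ → Prop} {S : Set ℤ}
    (h : ∀ m : ℕ, m % 2 = 1 → (P m ↔ (m : ℤ) ∈ S)) (X : ℕ) : count c q b P X = cntc 1 c q b S X := by
  unfold count cntc
  congr 1
  ext n
  simp only [Set.mem_ofPred_eq, one_mul, ← floor_cast]
  have h1 : (((⌊(n : ℝ) ^ c⌋₊ : ℕ) : ℤ) ≡ b [ZMOD q]) ↔ ⌊(n : ℝ) ^ c⌋₊ ≡ b [MOD q] :=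
    Int.natCast_modEq_iff
  rw [h1]
  constructor
  · rintro ⟨h2, h3, h4, h5⟩
    refine ⟨h2, h3, h4, (h _ ?_).1 h5⟩
    have := (Nat.ModEq.of_dvd hq h4)
    rw [← hb]
    exact this
  · rintro ⟨h2, h3, h4, h5⟩
    refine ⟨h2, h3, h4, (h _ ?_).2 h5⟩
    have := (Nat.ModEq.of_dvd hq h4)
    rw [← hb]
    exact this

theorem count_finite (c : ℝ) (q b : ℕ) (P : ℕ → Prop) (X : ℕ) :
    {n : ℕ | 1 ≤ n ∧ n ≤ X ∧ ⌊(n : ℝ) ^ c⌋₊ ≡ b [MOD q] ∧ P ⌊(n : ℝ) ^ c⌋₊}.Finite := by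
  refine (Finset.finite_toSet (Icc 1 X)).subset ?_
  rintro n ⟨h1, h2, -⟩
  simp only [coe_Icc, Set.mem_Icc]
  exact ⟨h1, h2⟩

theorem count_mono {c : ℝ} {q b : ℕ} (hq : 2 ∣ q) (hb : b % 2 = 1) {P Q : ℕ → Prop}
    (h : ∀ m : ℕ, m % 2 = 1 → P m → Q m) (X : ℕ) : count c q b P X ≤ count c q b Q X := by
  refine Set.ncard_le_ncard ?_ (count_finite c q b Q X)
  rintro n ⟨h2, h3, h4, h5⟩
  refine ⟨h2, h3, h4, h _ ?_ h5⟩
  have := (Nat.ModEq.of_dvd hq h4)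
  rw [← hb]
  exact this

/-- the density along the sequence in progressions -/
theorem dens_two {c : ℝ} (hc : 1 < c) (hc' : c < 101 / 100) {ε : ℝ} (hε : 0 < ε) :
    ∃ θ : ℝ, 0 < θ ∧ θ ≤ 1 / 8000 ∧ ∃ X₀ : ℕ, 1 ≤ X₀ ∧ ∀ S : Set ℤ, Inv 1 S → ∀ δ : ℝ,
    IsPhi 1 1 S (fun _ => δ) →
    ∀ X : ℕ, X₀ ≤ X → ∀ q : ℕ, 1 ≤ q → (q : ℝ) ≤ (X : ℝ) ^ θ → ∀ a : ℤ,
      |(cntc 1 c q a S X : ℝ) - δ * ((X : ℝ) / q)| ≤ ε * ((X : ℝ) / q) := by
  classical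
  obtain ⟨θ, hθ, X₀, hX₀, H⟩ := dens_ps (d := 1) (Or.inl (by norm_num)) hc hc' (s := 1) (Or.inl rfl)
    (show 0 < ε / 2 by positivity)
  obtain ⟨K, hK, H2⟩ := class_count hc hc'
  have hlim : Tendsto (fun X : ℕ => K * (X : ℝ) ^ (-(1 / 8000) : ℝ)) atTop (𝓝 0) := by
    have h1 := (tendsto_rpow_neg_atTop (show (0 : ℝ) < 1 / 8000 by norm_num)).comp tendsto_natCast_atTop_atTop
    have h2 := h1.const_mul K
    rw [mul_zero] at h2
    exact h2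
  obtain ⟨X1, hX1⟩ := (hlim.eventually (gt_mem_nhds (show (0 : ℝ) < ε / 2 by positivity))).exists_forall_of_atTop
  refine ⟨min θ (1 / 8000), lt_min hθ (by norm_num), min_le_right _ _, X₀ + X1, by omega,
    fun S hS δ hφ X hX q hq hqX a => ?_⟩
  have h0 : 0 ≤ δ := (hφ.1 0).1
  have h1 : δ ≤ 1 := (hφ.1 0).2
  have hXR : (1 : ℝ) ≤ X := by exact_mod_cast (by omega : 1 ≤ X)
  have hX0 : (0 : ℝ) < X := by linarith
  have hq0 : (0 : ℝ) < q := by exact_mod_cast hq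
  have hq1 : (q : ℝ) ≤ (X : ℝ) ^ θ := hqX.trans (Real.rpow_le_rpow_of_exponent_le hXR (min_le_left _ _))
  have hq2 : (q : ℝ) ≤ (X : ℝ) ^ (1 / 8000 : ℝ) := hqX.trans (Real.rpow_le_rpow_of_exponent_le hXR (min_le_right _ _))
  have t1 := H S hS _ hφ X (by omega) q hq hq1 a
  have t2 := H2 q hq a X (by omega)
  rw [Finset.sum_const, nsmul_eq_mul, mul_comm _ δ] at t1
  have h9 : K * (X : ℝ) ^ (1 - 1 / 4000 : ℝ) ≤ ε / 2 * (X / q) := by
    have e1 : (X : ℝ) ^ (1 - 1 / 4000 : ℝ) = (X : ℝ) ^ (-(1 / 8000) : ℝ) * (X : ℝ) ^ (1 - 1 / 8000 : ℝ) := by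
      rw [← Real.rpow_add hX0]; norm_num
    have e2 : (X : ℝ) ^ (1 - 1 / 8000 : ℝ) ≤ X / q := by
      rw [le_div_iff₀ hq0]
      calc (X : ℝ) ^ (1 - 1 / 8000 : ℝ) * q ≤ (X : ℝ) ^ (1 - 1 / 8000 : ℝ) * (X : ℝ) ^ (1 / 8000 : ℝ) := by gcongr
        _ = X := by rw [← Real.rpow_add hX0]; norm_num
    have e3 := (hX1 X (by omega)).le
    rw [e1, ← mul_assoc]
    exact mul_le_mul e3 e2 (by positivity) (by positivity)
  have t3 : |δ * (((Icc 1 X).filter (fun n : ℕ => ⌊(n : ℝ) ^ c⌋ ≡ a [ZMOD q])).card : ℝ) - δ * ((X : ℝ) / q)| ≤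
      ε / 2 * (X / q) := by
    rw [← mul_sub, abs_mul, abs_of_nonneg h0]
    have := abs_nonneg ((((Icc 1 X).filter (fun n : ℕ => ⌊(n : ℝ) ^ c⌋ ≡ a [ZMOD q])).card : ℝ) - (X : ℝ) / q)
    nlinarith
  have := abs_sub_le (cntc 1 c q a S X : ℝ)
    (δ * (((Icc 1 X).filter (fun n : ℕ => ⌊(n : ℝ) ^ c⌋ ≡ a [ZMOD q])).card : ℝ)) (δ * ((X : ℝ) / q))
  linarith

/-- the reduction for one element -/
theorem sparse1 {c : ℝ} (hc : 1 < c) (hc' : c < 101 / 100)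
    {S : Set ℤ} (hS : Inv 1 S) {ψ : ℕ → ℝ} (hψ : Tendsto ψ atTop (𝓝 0)) {x₀ : ℤ} (hx0 : 0 < x₀)
    (hx3 : ¬ (3 : ℤ) ∣ x₀)
    (h : ∃ᶠ X : ℕ in atTop, ∃ q : ℕ, 1 ≤ q ∧ (q : ℝ) ≤ (X : ℝ) ^ ψ X ∧ ∃ a : ℤ,
      (cntc 1 c q a Sᶜ X : ℝ) ≤ ψ X * ((X : ℝ) / q)) : x₀ ∈ S := by
  classical
  by_contra hx
  have hSc : Inv 1 Sᶜ := fun x => not_congr (hS x)
  have hk : (1 : ℤ) % 6 = 1 ∨ (1 : ℤ) % 6 = 5 := Or.inl rfl
  obtain ⟨φ, hφ, hpos⟩ := exists_phi hk (s := 1) (Or.inl rfl) hSc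
  have hφ0 : 0 < φ x₀ := hpos x₀ x₀ hx (by omega) hx3 ⟨0, 0, by simp⟩
  obtain ⟨θ, hθ, X₀, hX₀, H1⟩ := dens_ps hk hc hc' (s := 1) (Or.inl rfl) (show 0 < φ x₀ / 4 by positivity)
  obtain ⟨K, hK, H2⟩ := main_termc hk hc hc'
  have hlim : Tendsto (fun X : ℕ => (2 * K) * (X : ℝ) ^ (-(1 / 8000) : ℝ)) atTop (𝓝 0) := by
    have h1 := (tendsto_rpow_neg_atTop (show (0 : ℝ) < 1 / 8000 by norm_num)).comp tendsto_natCast_atTop_atTop
    have h2 := h1.const_mul (2 * K)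
    rw [mul_zero] at h2
    exact h2
  have hev : ∀ᶠ X : ℕ in atTop, ψ X < φ x₀ / 4 ∧ ψ X < θ ∧ ψ X < 1 / 8000 ∧
      (2 * K) * (X : ℝ) ^ (-(1 / 8000) : ℝ) < 1 ∧ X₀ ≤ X :=
    (hψ.eventually (gt_mem_nhds (by positivity))).and ((hψ.eventually (gt_mem_nhds hθ)).and
      ((hψ.eventually (gt_mem_nhds (by norm_num))).and ((hlim.eventually (gt_mem_nhds one_pos)).and (eventually_ge_atTop _))))
  obtain ⟨X, ⟨q, hq, hqX, a, hcc⟩, h1, h2, h3, h5, hX0⟩ := (h.and_eventually hev).exists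
  have hXR : (1 : ℝ) ≤ X := by exact_mod_cast (by omega : 1 ≤ X)
  have hX00 : (0 : ℝ) < X := by linarith
  have hq0 : (0 : ℝ) < q := by exact_mod_cast hq
  have hqθ : (q : ℝ) ≤ (X : ℝ) ^ θ := hqX.trans (Real.rpow_le_rpow_of_exponent_le hXR h2.le)
  have hq2 : (q : ℝ) ≤ (X : ℝ) ^ (1 / 8000 : ℝ) := hqX.trans (Real.rpow_le_rpow_of_exponent_le hXR h3.le)
  have a1 := (abs_le.1 (H1 Sᶜ hSc φ hφ X hX0 q hq hqθ a)).1
  have a2 := H2 1 (Or.inl rfl) Sᶜ φ hφ x₀ q hq a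
    (show Pool.Agent.Results.MP_7f88e4_nt.ResidueClasses.Rel (Int.gcd q 1) (1 * a) x₀ from
      ⟨0, 0, by rw [Int.gcd_one_right, Nat.cast_one]; exact Int.modEq_one⟩) X (by omega)
  have hn1 : ((1 : ℤ).natAbs : ℝ) = 1 := by norm_num
  rw [hn1, mul_one] at a2
  -- the error term is at most half the main term
  have a3 : K * (X : ℝ) ^ (1 - 1 / 4000 : ℝ) ≤ (X : ℝ) / (2 * q) := by
    rw [le_div_iff₀ (by positivity)]
    have e1 : (X : ℝ) ^ (1 - 1 / 4000 : ℝ) * (X : ℝ) ^ (1 / 8000 : ℝ) = (X : ℝ) ^ (-(1 / 8000) : ℝ) * X := by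
      rw [← Real.rpow_add hX00]
      nth_rewrite 3 [← Real.rpow_one (X : ℝ)]
      rw [← Real.rpow_add hX00]
      norm_num
    calc K * (X : ℝ) ^ (1 - 1 / 4000 : ℝ) * (2 * q)
        = 2 * K * ((X : ℝ) ^ (1 - 1 / 4000 : ℝ) * q) := by ring
      _ ≤ 2 * K * ((X : ℝ) ^ (1 - 1 / 4000 : ℝ) * (X : ℝ) ^ (1 / 8000 : ℝ)) := by gcongr
      _ = ((2 * K) * (X : ℝ) ^ (-(1 / 8000) : ℝ)) * X := by rw [e1]; ring
      _ ≤ 1 * X := mul_le_mul_of_nonneg_right h5.le hX00.le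
      _ = X := one_mul _
  have a4 : φ x₀ * (X / (2 * q)) ≤ ∑ n ∈ (Icc 1 X).filter (fun n : ℕ => ⌊(n : ℝ) ^ c⌋ ≡ a [ZMOD q]),
      φ (1 * ⌊(n : ℝ) ^ c⌋) := by
    have e2 : (X : ℝ) / q = 2 * (X / (2 * q)) := by field_simp
    have e3 : φ x₀ * (X / (2 * q)) ≤ φ x₀ * ((X : ℝ) / q - K * (X : ℝ) ^ (1 - 1 / 4000 : ℝ)) :=
      mul_le_mul_of_nonneg_left (by rw [e2]; linarith) hφ0.le
    exact e3.trans a2
  have e5 : φ x₀ * (X / (2 * q)) = 2 * (φ x₀ / 4) * ((X : ℝ) / q) := by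
    field_simp; ring
  have hpos2 : 0 < (X : ℝ) / q := by positivity
  have a6 : ψ X * ((X : ℝ) / q) < φ x₀ / 4 * ((X : ℝ) / q) :=
    mul_lt_mul_of_pos_right h1 hpos2
  rw [e5] at a4
  linarith

theorem nk_e (t : ℝ) : Pool.Agent.H469R2.NK.e t = e t := by
  unfold Pool.Agent.H469R2.NK.e e
  push_cast
  rfl

theorem e_half (α : ℝ) (m : ℤ) : e ((α + 1 / 2) * m) = (if m % 2 = 1 then -1 else 1) * e (α * m) := by
  have h1 : e ((α + 1 / 2) * m) = Complex.exp (m * (Real.pi * Complex.I)) * e (α * m) := by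
    unfold e
    rw [← Complex.exp_add]
    congr 1
    push_cast
    ring
  rw [h1, Complex.exp_int_mul, Complex.exp_pi_mul_I]
  congr 1
  rcases Int.emod_two_eq_zero_or_one m with h | h
  · rw [if_neg (by omega), (Int.even_iff.2 h).neg_one_zpow]
  · rw [if_pos h, (Int.odd_iff.2 h).neg_one_zpow]

theorem Td_cast (m : ℕ) : Td 1 (m : ℤ) = (T m : ℕ) := by
  unfold Td T
  by_cases h : m % 2 = 0
  · rw [if_pos (by omega), if_pos h]
    omega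
  · rw [if_neg (by omega), if_neg h]
    omega

theorem Td_iter (m i : ℕ) : (Td 1)^[i] (m : ℤ) = ((T^[i] m : ℕ) : ℤ) := by
  induction i with
  | zero => rfl
  | succ i ih => rw [Function.iterate_succ_apply', Function.iterate_succ_apply', ih, Td_cast]

/-- almost bounded values -/
theorem tail_crit {c : ℝ} (hc : 1 < c) (hc' : c < 101 / 100) (C : ℕ → ℝ)
    (hsh : ∀ n : ℕ, n % 2 = 1 → Shadows (C n) n) :
    ∃ ρ K : ℝ, 0 < ρ ∧ ∀ X : ℕ, 1 ≤ X → ∀ y : ℝ, 1 ≤ y →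
      ({n : ℕ | 1 ≤ n ∧ n ≤ X ∧ ⌊(n : ℝ) ^ c⌋₊ % 2 = 1 ∧ ∀ i : ℕ, y + 1 < f^[i] (C ⌊(n : ℝ) ^ c⌋₊)}.ncard : ℝ) ≤
        K * X / y ^ ρ := by
  obtain ⟨c0, hc0, C0, hC0, H0⟩ := Pool.Agent.TH930.PS.three' (k := 1) (Int.odd_iff.2 (by norm_num))
  have hb := Pool.Agent.H319R2.beta_lt
  obtain ⟨ρ, K, hρ, -, H⟩ := low_ps (k := 1) (by norm_num) hc hc' (by linarith) hC0 H0
  refine ⟨ρ, K, hρ, fun X hX y hy => le_trans ?_ (H 1 (Or.inl rfl) X hX y hy)⟩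
  have h1 : {n : ℕ | 1 ≤ n ∧ n ≤ X ∧ ⌊(n : ℝ) ^ c⌋₊ % 2 = 1 ∧ ∀ i : ℕ, y + 1 < f^[i] (C ⌊(n : ℝ) ^ c⌋₊)} ⊆
      {n : ℕ | 1 ≤ n ∧ n ≤ X ∧ ∀ i : ℕ, y < |(((Td 1)^[i] (1 * ⌊(n : ℝ) ^ c⌋) : ℤ) : ℝ)|} := by
    rintro n ⟨g1, g2, g3, g4⟩
    refine ⟨g1, g2, fun i => ?_⟩
    have hpos : 1 ≤ ⌊(n : ℝ) ^ c⌋₊ := by omega
    rw [one_mul, ← floor_cast, Td_iter]
    have h2 := hsh _ g3 i
    have h3 := g4 i
    have h4 : (1 : ℝ) ≤ ((T^[i] ⌊(n : ℝ) ^ c⌋₊ : ℕ) : ℝ) := by exact_mod_cast Tk_pos hpos i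
    have b1 : 5 / (6 * (2 * ((T^[i] ⌊(n : ℝ) ^ c⌋₊ : ℕ) : ℝ) + 1)) ≤ 5 / 18 := by
      apply div_le_div_of_nonneg_left (by norm_num) (by norm_num)
      linarith
    have h5 := (abs_le.1 (h2.trans b1)).2
    have h6 : |((((T^[i] ⌊(n : ℝ) ^ c⌋₊ : ℕ) : ℤ)) : ℝ)| = ((T^[i] ⌊(n : ℝ) ^ c⌋₊ : ℕ) : ℝ) := by
      rw [Int.cast_natCast]
      exact abs_of_nonneg (by positivity)
    rw [h6]
    linarith
  have h2 := Set.ncard_le_ncard h1 (high_fin 1 1 c X y)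
  have h3 : ({n : ℕ | 1 ≤ n ∧ n ≤ X ∧ ∀ i : ℕ, y < |(((Td 1)^[i] (1 * ⌊(n : ℝ) ^ c⌋) : ℤ) : ℝ)|}.ncard : ℝ) =
      (high 1 1 c X y : ℝ) := rfl
  rw [← h3]
  exact_mod_cast h2

theorem inv_reach : Invariant reach := by
  intro n hn
  constructor
  · rintro ⟨k, hk⟩
    rcases k with _ | k
    · have h1 : n = 1 := hk
      subst h1
      exact ⟨1, by decide⟩
    · rw [Function.iterate_succ_apply] at hk
      exact ⟨k, hk⟩
  · rintro ⟨k, hk⟩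
    exact ⟨k + 1, by rw [Function.iterate_succ_apply]; exact hk⟩

/-- **Theorem.** Let `1 < c < 101/100`. There are `a ∈ [1.19, 1.196]` with `f (f a) = a` and `C 1, C 3, …` such
that `1` and `a` are points of attracting cycles and
(1) for odd `n`: `C n` is the only critical point of `f` in `(n, n + 1/2)`, its orbit follows the `T`-orbit of
`n`; for every invariant `S` the orbit of `C n` follows finally a `T`-orbit in `S` iff `n ∈ S`; `C n` is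
attracted by `{1, 2}` iff `n ≥ 7` reaches `1`, and by the cycle of `a` iff `n ∈ {1, 3, 5}`;
(2) every invariant `S` has a natural density, which is positive unless `S` has no positive element;
(3) for every `ε > 0` there is `θ > 0` such that for all large `X`, all even `q ≤ X ^ θ` and odd `b`: for every
invariant `S` with density `δ` the orbit of `C ⌊n ^ c⌋` follows finally a `T`-orbit in `S` for `δ X / q` of the
`n ≤ X` with `⌊n ^ c⌋ ≡ b` modulo `q`, up to `ε X / q`; if `δ` is the density of the integers reaching `1` then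
`C ⌊n ^ c⌋` is attracted by `{1, 2}` for `δ X / q` of these `n` up to `ε X / q`;
(4) for every `ε > 0`, all large `X`, all invariant `S` with density `δ` and all real `α` the sum of
`(1 - δ) e(α ⌊n ^ c⌋)` or `- δ e(α ⌊n ^ c⌋)` (the orbit of `C ⌊n ^ c⌋` follows finally a `T`-orbit in `S` or
not) over the `n ≤ X` with `⌊n ^ c⌋` odd is at most `ε X` in absolute value;
(5) let `S` be invariant. If for infinitely many `X`, for some even `q ≤ X ^ o(1)` and odd `b`, the orbits of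
all but `o(X / q)` of the `C ⌊n ^ c⌋`, `n ≤ X`, `⌊n ^ c⌋ ≡ b` modulo `q`, follow finally a `T`-orbit in `S`, then
`S` contains all positive integers;
(6) if for infinitely many `X`, for some even `q ≤ X ^ o(1)` and odd `b`, all but `o(X / q)` of the
`C ⌊n ^ c⌋`, `n ≤ X`, `⌊n ^ c⌋ ≡ b` modulo `q`, are attracted by `{1, 2}`, then the `3x+1` orbits of all
positive integers reach `1` and all `C n`, `n ≥ 7` odd, are attracted by `{1, 2}`;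
(7) there are `ρ > 0` and `K` such that for all `X` and `y ≥ 1` the orbits of all but `K X / y ^ ρ` of the
`C ⌊n ^ c⌋`, `n ≤ X`, `⌊n ^ c⌋` odd, have a term at most `y + 1`. -/
theorem result (c : ℝ) (hc : 1 < c) (hc' : c < 101 / 100) : ∃ (a : ℝ) (C : ℕ → ℝ),
    (a ∈ Set.Icc (1.19 : ℝ) 1.196 ∧ f (f a) = a ∧ AttractingPoint 1 ∧ AttractingPoint a) ∧
    (∀ n : ℕ, n % 2 = 1 →
      ((n : ℝ) < C n ∧ C n < n + 1 / 2 ∧ deriv f (C n) = 0 ∧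
        ∀ x : ℝ, (n : ℝ) < x → x < n + 1 / 2 → deriv f x = 0 → x = C n) ∧
      Shadows (C n) n ∧ (∀ S : Set ℕ, Invariant S → (Fate S (C n) ↔ n ∈ S)) ∧
      (Attracts 1 (C n) ↔ 7 ≤ n ∧ n ∈ reach) ∧ (Attracts a (C n) ↔ n = 1 ∨ n = 3 ∨ n = 5)) ∧
    (∀ S : Set ℕ, Invariant S → ∃ δ : ℝ, HasDensity S δ ∧ ((∃ m ∈ S, 1 ≤ m) → 0 < δ)) ∧
    (∀ ε : ℝ, 0 < ε → ∃ θ : ℝ, 0 < θ ∧ ∃ X₀ : ℕ, ∀ X : ℕ, X₀ ≤ X → ∀ q : ℕ, 1 ≤ q → 2 ∣ q →
      (q : ℝ) ≤ (X : ℝ) ^ θ → ∀ b : ℕ, b % 2 = 1 →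
      (∀ (S : Set ℕ) (δ : ℝ), Invariant S → HasDensity S δ →
        |(count c q b (fun m => Fate S (C m)) X : ℝ) - δ * ((X : ℝ) / q)| ≤ ε * ((X : ℝ) / q)) ∧
      ∀ δ : ℝ, HasDensity reach δ →
        |(count c q b (fun m => Attracts 1 (C m)) X : ℝ) - δ * ((X : ℝ) / q)| ≤ ε * ((X : ℝ) / q)) ∧
    (∀ ε : ℝ, 0 < ε → ∃ X₀ : ℕ, ∀ X : ℕ, X₀ ≤ X → ∀ (S : Set ℕ) (δ : ℝ), Invariant S → HasDensity S δ →
      ∀ α : ℝ, ‖∑ n ∈ (Icc 1 X).filter (fun n : ℕ => ⌊(n : ℝ) ^ c⌋₊ % 2 = 1),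
        (({m : ℕ | Fate S (C m)}.indicator (fun _ => (1 : ℝ)) ⌊(n : ℝ) ^ c⌋₊ - δ : ℝ) : ℂ) *
          e (α * (⌊(n : ℝ) ^ c⌋₊ : ℝ))‖ ≤ ε * X) ∧
    (∀ S : Set ℕ, Invariant S → ∀ ψ : ℕ → ℝ, Tendsto ψ atTop (𝓝 0) →
      (∃ᶠ X : ℕ in atTop, ∃ q : ℕ, 1 ≤ q ∧ 2 ∣ q ∧ (q : ℝ) ≤ (X : ℝ) ^ ψ X ∧ ∃ b : ℕ, b % 2 = 1 ∧
        (count c q b (fun m => ¬ Fate S (C m)) X : ℝ) ≤ ψ X * ((X : ℝ) / q)) → ∀ n : ℕ, 1 ≤ n → n ∈ S) ∧
    (∀ ψ : ℕ → ℝ, Tendsto ψ atTop (𝓝 0) →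
      (∃ᶠ X : ℕ in atTop, ∃ q : ℕ, 1 ≤ q ∧ 2 ∣ q ∧ (q : ℝ) ≤ (X : ℝ) ^ ψ X ∧ ∃ b : ℕ, b % 2 = 1 ∧
        (count c q b (fun m => ¬ Attracts 1 (C m)) X : ℝ) ≤ ψ X * ((X : ℝ) / q)) →
      (∀ n : ℕ, 1 ≤ n → ∃ k : ℕ, T^[k] n = 1) ∧ ∀ n : ℕ, n % 2 = 1 → 7 ≤ n → Attracts 1 (C n)) ∧
    ∃ ρ K : ℝ, 0 < ρ ∧ ∀ X : ℕ, 1 ≤ X → ∀ y : ℝ, 1 ≤ y →
      ({n : ℕ | 1 ≤ n ∧ n ≤ X ∧ ⌊(n : ℝ) ^ c⌋₊ % 2 = 1 ∧ ∀ i : ℕ, y + 1 < f^[i] (C ⌊(n : ℝ) ^ c⌋₊)}.ncard : ℝ) ≤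
        K * X / y ^ ρ := by
  classical
  obtain ⟨a, ha, hga⟩ := Pool.Agent.H934R2.Ch.exists_a2
  have hex : ∀ n : ℕ, ∃ x : ℝ, n % 2 = 1 → (n : ℝ) < x ∧ x < n + 1 / 2 ∧ deriv f x = 0 ∧
      ∀ y : ℝ, (n : ℝ) < y → y < n + 1 / 2 → deriv f y = 0 → y = x := by
    intro n
    by_cases hn : n % 2 = 1
    · obtain ⟨x, ⟨h1, h2, h3⟩, h4⟩ := Pool.Agent.H934R2.Ch.exists_unique_odd n hn
      exact ⟨x, fun _ => ⟨h1, h2, h3, fun y g1 g2 g3 => h4 y ⟨g1, g2, g3⟩⟩⟩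
    · exact ⟨0, fun h => absurd h hn⟩
  choose C hC using hex
  have hsh : ∀ n : ℕ, n % 2 = 1 → Shadows (C n) n := by
    intro n hn
    obtain ⟨h1, h2, h3, -⟩ := hC n hn
    exact shadows_of (by omega) (Pool.Agent.H934R2.Ch.crit_in_trap hn h1 h2 h3)
  have hO : ∀ n : ℕ, n % 2 = 1 →
      (Attracts a (C n) ↔ n = 1 ∨ n = 3 ∨ n = 5) ∧ (Attracts 1 (C n) ↔ 7 ≤ n ∧ n ∈ reach) := by
    intro n hn
    obtain ⟨h1, h2, h3, -⟩ := hC n hn
    exact Pool.Agent.Helper29K9.Cham.odd_fate ha hga hn h1 h2 h3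
  have hF : ∀ S : Set ℕ, Invariant S → ∀ n : ℕ, n % 2 = 1 → (Fate S (C n) ↔ n ∈ S) := fun S hS n hn =>
    fate_iff hS (by omega) (hsh n hn)
  have hFz : ∀ S : Set ℕ, Invariant S → ∀ m : ℕ, m % 2 = 1 → (Fate S (C m) ↔ (m : ℤ) ∈ Sz S) := by
    intro S hS m hm
    rw [mem_Sz S (by omega)]
    exact hF S hS m hm
  have h5 : ∀ S : Set ℕ, Invariant S → ∀ ψ : ℕ → ℝ, Tendsto ψ atTop (𝓝 0) →
      (∃ᶠ X : ℕ in atTop, ∃ q : ℕ, 1 ≤ q ∧ 2 ∣ q ∧ (q : ℝ) ≤ (X : ℝ) ^ ψ X ∧ ∃ b : ℕ, b % 2 = 1 ∧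
        (count c q b (fun m => ¬ Fate S (C m)) X : ℝ) ≤ ψ X * ((X : ℝ) / q)) → ∀ n : ℕ, 1 ≤ n → n ∈ S := by
    intro S hS ψ hψ h n hn
    obtain ⟨j, hj1, hj2⟩ := reaches_cop n hn
    rw [inv_iterate hS hn j, ← mem_Sz S hj1]
    refine sparse1 hc hc' (inv_Sz hS) hψ (by exact_mod_cast hj1) (fun h => hj2 (by exact_mod_cast h)) (h.mono ?_)
    rintro X ⟨q, hq, hq2, hqX, b, hb, hcc⟩
    refine ⟨q, hq, hqX, b, ?_⟩
    rwa [count_eq hc hq2 hb (S := (Sz S)ᶜ) (fun m hm => not_congr (hFz S hS m hm)) X] at hcc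
  refine ⟨a, C, ⟨ha, hga, Pool.Agent.H934R2.Ch.known_attr ha hga (Or.inl rfl),
    Pool.Agent.H934R2.Ch.known_attr ha hga (Or.inr (Or.inr (Or.inl rfl)))⟩,
    fun n hn => ⟨hC n hn, hsh n hn, fun S hS => hF S hS n hn, (hO n hn).2, (hO n hn).1⟩,
    fun S hS => exists_density hS, ?_, ?_, h5, ?_, tail_crit hc hc' C hsh⟩
  · intro ε hε
    obtain ⟨θ, hθ, hθ1, X₀, hX₀, H⟩ := dens_two hc hc' (show 0 < ε / 2 by positivity)
    obtain ⟨X1, hX1⟩ := exists_nat_ge ((10 / ε) ^ 2)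
    refine ⟨θ, hθ, X₀ + X1, fun X hX q hq hq2 hqX b hb => ?_⟩
    have hXR : (1 : ℝ) ≤ X := by exact_mod_cast (by omega : 1 ≤ X)
    have hX0 : (0 : ℝ) < X := by linarith
    have hq0 : (0 : ℝ) < q := by exact_mod_cast hq
    have hXq : 0 ≤ (X : ℝ) / q := by positivity
    have key : ∀ (S : Set ℕ) (δ : ℝ), Invariant S → HasDensity S δ →
        |(count c q b (fun m => Fate S (C m)) X : ℝ) - δ * ((X : ℝ) / q)| ≤ ε / 2 * ((X : ℝ) / q) := by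
      intro S δ hS hδ
      rw [count_eq hc hq2 hb (hFz S hS) X]
      exact H (Sz S) (inv_Sz hS) δ (phi_Sz hδ) X (by omega) q hq hqX b
    refine ⟨fun S δ hS hδ => (key S δ hS hδ).trans ?_, fun δ hδ => ?_⟩
    · nlinarith
    · have k1 := key reach δ inv_reach hδ
      -- the two counts differ by at most five
      have hle : count c q b (fun m => Attracts 1 (C m)) X ≤ count c q b (fun m => Fate reach (C m)) X := by
        refine count_mono hq2 hb (fun m hm h => ?_) X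
        exact (hF reach inv_reach m hm).2 ((hO m hm).2.1 h).2
      have hge : count c q b (fun m => Fate reach (C m)) X ≤ count c q b (fun m => Attracts 1 (C m)) X + 5 := by
        have h1 : {n : ℕ | 1 ≤ n ∧ n ≤ X ∧ ⌊(n : ℝ) ^ c⌋₊ ≡ b [MOD q] ∧ Fate reach (C ⌊(n : ℝ) ^ c⌋₊)} ⊆
            {n : ℕ | 1 ≤ n ∧ n ≤ X ∧ ⌊(n : ℝ) ^ c⌋₊ ≡ b [MOD q] ∧ Attracts 1 (C ⌊(n : ℝ) ^ c⌋₊)} ∪
              ((Icc 1 5 : Finset ℕ) : Set ℕ) := by
          rintro n ⟨g1, g2, g3, g4⟩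
          have g5 : ⌊(n : ℝ) ^ c⌋₊ % 2 = 1 := by
            have := Nat.ModEq.of_dvd hq2 g3
            rw [← hb]
            exact this
          by_cases h7 : 7 ≤ ⌊(n : ℝ) ^ c⌋₊
          · exact Or.inl ⟨g1, g2, g3, (hO _ g5).2.2 ⟨h7, (hF reach inv_reach _ g5).1 g4⟩⟩
          · right
            have := le_floor g1 hc
            simp only [coe_Icc, Set.mem_Icc]
            omega
        have h2 := (Set.ncard_le_ncard h1 ((count_finite c q b (fun m => Attracts 1 (C m)) X).union (Finset.finite_toSet _))).trans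
          (Set.ncard_union_le _ _)
        rw [Set.ncard_coe_finset, Nat.card_Icc] at h2
        exact h2
      have hle' : (count c q b (fun m => Attracts 1 (C m)) X : ℝ) ≤ count c q b (fun m => Fate reach (C m)) X := by
        exact_mod_cast hle
      have hge' : (count c q b (fun m => Fate reach (C m)) X : ℝ) ≤
          count c q b (fun m => Attracts 1 (C m)) X + 5 := by exact_mod_cast hge
      have h5' : 5 ≤ ε / 2 * ((X : ℝ) / q) := by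
        have e1 : (X : ℝ) ^ (1 / 2 : ℝ) ≤ X / q := by
          rw [le_div_iff₀ hq0]
          calc (X : ℝ) ^ (1 / 2 : ℝ) * q ≤ (X : ℝ) ^ (1 / 2 : ℝ) * (X : ℝ) ^ (1 / 2 : ℝ) := by
                refine mul_le_mul_of_nonneg_left (hqX.trans ?_) (by positivity)
                exact Real.rpow_le_rpow_of_exponent_le hXR (by linarith)
            _ = X := by rw [← Real.rpow_add hX0]; norm_num
        have e2 : 10 / ε ≤ (X : ℝ) ^ (1 / 2 : ℝ) := by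
          rw [← Real.sqrt_eq_rpow]
          apply Real.le_sqrt_of_sq_le
          refine hX1.trans ?_
          exact_mod_cast (by omega : X1 ≤ X)
        have e3 : 10 / ε ≤ X / q := e2.trans e1
        calc (5 : ℝ) = ε / 2 * (10 / ε) := by field_simp; norm_num
          _ ≤ _ := mul_le_mul_of_nonneg_left e3 (by positivity)
      obtain ⟨u1, u2⟩ := abs_le.1 k1
      rw [abs_le]
      constructor <;> linarith
  · intro ε hε
    obtain ⟨X₀, hX₀, H⟩ := fourier_ps (d := 1) (Or.inl (by norm_num)) hc hc' (s := 1) (Or.inl rfl) hε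
    refine ⟨X₀, fun X hX S δ hS hδ α => ?_⟩
    set g : ℕ → ℝ := fun n => balD 1 (Sz S) (fun _ => δ) ⌊(n : ℝ) ^ c⌋ with hg
    have h1 := H (Sz S) (inv_Sz hS) _ (phi_Sz hδ) X hX α
    have h2 := H (Sz S) (inv_Sz hS) _ (phi_Sz hδ) X hX (α + 1 / 2)
    simp only [nk_e] at h1 h2
    have h3 : ∑ n ∈ (Icc 1 X).filter (fun n : ℕ => ⌊(n : ℝ) ^ c⌋₊ % 2 = 1),
        (({m : ℕ | Fate S (C m)}.indicator (fun _ => (1 : ℝ)) ⌊(n : ℝ) ^ c⌋₊ - δ : ℝ) : ℂ) *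
          e (α * (⌊(n : ℝ) ^ c⌋₊ : ℝ)) =
        (1 / 2 : ℂ) * (∑ n ∈ Icc 1 X, ((g n : ℝ) : ℂ) * e (α * (⌊(n : ℝ) ^ c⌋ : ℝ)) -
          ∑ n ∈ Icc 1 X, ((g n : ℝ) : ℂ) * e ((α + 1 / 2) * (⌊(n : ℝ) ^ c⌋ : ℝ))) := by
      rw [Finset.sum_filter, ← Finset.sum_sub_distrib, Finset.mul_sum]
      refine Finset.sum_congr rfl fun n hn => ?_
      have hn1 := (mem_Icc.1 hn).1
      have hfl := floor_cast n c
      have hpos : 1 ≤ ⌊(n : ℝ) ^ c⌋₊ := hn1.trans (le_floor hn1 hc)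
      rw [e_half]
      by_cases ho : ⌊(n : ℝ) ^ c⌋₊ % 2 = 1
      · have ho' : ⌊(n : ℝ) ^ c⌋ % 2 = 1 := by rw [← hfl]; omega
        rw [if_pos ho, if_pos ho']
        have hgn : g n = {m : ℕ | Fate S (C m)}.indicator (fun _ => (1 : ℝ)) ⌊(n : ℝ) ^ c⌋₊ - δ := by
          simp only [hg]
          unfold balD ind
          rw [one_mul, ← hfl]
          by_cases hm : ((⌊(n : ℝ) ^ c⌋₊ : ℕ) : ℤ) ∈ Sz S
          · rw [if_pos hm, Set.indicator_of_mem (show ⌊(n : ℝ) ^ c⌋₊ ∈ {m : ℕ | Fate S (C m)} from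
              (hFz S hS _ ho).2 hm)]
          · rw [if_neg hm, Set.indicator_of_notMem (show ⌊(n : ℝ) ^ c⌋₊ ∉ {m : ℕ | Fate S (C m)} from
              fun h => hm ((hFz S hS _ ho).1 h))]
        have hcast : ((⌊(n : ℝ) ^ c⌋ : ℤ) : ℝ) = ((⌊(n : ℝ) ^ c⌋₊ : ℕ) : ℝ) := by
          rw [← hfl]; norm_cast
        rw [hgn, hcast]
        ring
      · have ho' : ¬ ⌊(n : ℝ) ^ c⌋ % 2 = 1 := by rw [← hfl]; omega
        rw [if_neg ho, if_neg ho']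
        ring
    rw [h3, norm_mul]
    have h4 : ‖(1 / 2 : ℂ)‖ = 1 / 2 := by norm_num
    rw [h4]
    have h6 := norm_sub_le (∑ n ∈ Icc 1 X, ((g n : ℝ) : ℂ) * e (α * (⌊(n : ℝ) ^ c⌋ : ℝ)))
      (∑ n ∈ Icc 1 X, ((g n : ℝ) : ℂ) * e ((α + 1 / 2) * (⌊(n : ℝ) ^ c⌋ : ℝ)))
    linarith
  · intro ψ hψ h
    have hall : ∀ n : ℕ, 1 ≤ n → n ∈ reach := by
      refine h5 reach inv_reach ψ hψ (h.mono ?_)
      rintro X ⟨q, hq, hq2, hqX, b, hb, hcc⟩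
      refine ⟨q, hq, hq2, hqX, b, hb, le_trans ?_ hcc⟩
      have h1 : count c q b (fun m => ¬ Fate reach (C m)) X ≤ count c q b (fun m => ¬ Attracts 1 (C m)) X := by
        refine count_mono hq2 hb (fun m hm h2 h3 => h2 ?_) X
        exact (hF reach inv_reach m hm).2 ((hO m hm).2.1 h3).2
      exact_mod_cast h1
    exact ⟨hall, fun n hn h7 => (hO n hn).2.2 ⟨h7, hall n (by omega)⟩⟩

end Pool.Agent.Results.MP_a247fa_nt.CriticalPointsAlongPowers
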