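import Pool.Agent.Helper29K9.EF.Fin

/-!
# The exact proportion of the critical orbits of Chamberland's map which follow the integer orbits

`f` is Chamberland's real extension of the `3x+1` map `T`, and `c n` is its critical point near the
positive integer `n`.  For odd `n` the orbit of `c n` follows the `T`-orbit of `n` for all time, at distance
at most `3/(2h+1)` from the integer `h` of the orbit.  For even `n` this is sometimes false.  We determine the
exact density.

Let `κ` be the probability that the random path `s₀ = 1/16`, `s_{k+1} = (s_k - s_k²)/4` or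
`s_{k+1} = (9 s_k + 3 s_k²)/4` (with probability `1/2` each) stays in `[-7, 7]` for ever; then
`0.916 ≤ κ ≤ 0.945`.  For every `K ≥ 3` the `n` which reach `1` and for which `c n` follows the orbit of `n` at
distance at most `K/(2h+1)` have density `δ (1+κ)/2`, where `δ > 0` is the density of the `n` which reach `1`.
Almost all of these `c n` are attracted by the cycle `{1, 2}`.  The other `n` which reach `1` have density
`δ (1-κ)/2 > 0`.

Idea: near a large integer `h` the scaled deviation `s = π² (2h+1) (h - x)/4` moves, up to `O(1/h)`, by the two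
maps above, and even `n = 2m` starts (after one step) at `1/16`.  A path which leaves `[-7, 7]` grows
exponentially, a path in `[-3, 0]` stays there, and a Lyapunov function (the fourth root of `s` for positive
`s`) shows that up to probability `0.97^L` a path which has not left `[-7, 7]` is at time `L` in `[-2, 0]` or
very close to `0`.  From such a state the orbit follows for ever unless the `T`-orbit makes an excursion of
more than a large factor, which is rare; the joint distribution of the parity word and of the event that the orbit reaches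
`1` comes from the existence of the densities of `T`-invariant sets in the start files.
-/

set_option autoImplicit false

namespace Pool.Agent.Results.MP_a247fa_nt.ExactFollowing

open Filter Topology

/-- Chamberland's map. -/
noncomputable def f (x : ℝ) : ℝ := x + 1 / 4 - (2 * x + 1) / 4 * Real.cos (Real.pi * x)

/-- The `3x+1` map. -/
def T (n : ℕ) : ℕ := if n % 2 = 0 then n / 2 else (3 * n + 1) / 2

/-- The orbit of `n` reaches `1`. -/
def Reaches (n : ℕ) : Prop := ∃ k : ℕ, T^[k] n = 1

/-- The orbit of `x` under `f` follows the orbit of `n` under `T`: the distance from the integer `h` of the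
orbit is at most `K/(2h+1)`, at all times. -/
def Follows (K x : ℝ) (n : ℕ) : Prop :=
  ∀ k : ℕ, |f^[k] x - (T^[k] n : ℕ)| ≤ K / (2 * ((T^[k] n : ℕ) : ℝ) + 1)

/-- The orbit of `x` converges to the cycle of `y`. -/
def Attracts (y x : ℝ) : Prop :=
  ∃ j : ℕ, Tendsto (fun k : ℕ => f^[k * Function.minimalPeriod f y + j] x) atTop (𝓝 y)

/-- The set of positive integers with the property `P` has natural density `d`. -/
def HasDensity (P : ℕ → Prop) (d : ℝ) : Prop :=
  Tendsto (fun N : ℕ => ({n : ℕ | 1 ≤ n ∧ n ≤ N ∧ P n}.ncard : ℝ) / N) atTop (𝓝 d)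

/-- The limiting path of the scaled deviation along the parities of `r, T r, T² r, …`. -/
noncomputable def S (r : ℕ) : ℕ → ℝ
  | 0 => 1 / 16
  | k + 1 => if T^[k] r % 2 = 0 then (S r k - S r k ^ 2) / 4 else (9 * S r k + 3 * S r k ^ 2) / 4

/-- **Main theorem.** There are `δ > 0`, `κ ∈ [0.916, 0.945]` and `c 1, c 2, …` with
(1) `c n` is the only critical point of `f` at distance less than `1/2` from `n`, and the `c n` are all
critical points of `f` in `(0,∞)`;
(2) `δ` is the density of the `n` which reach `1`;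
(3) `κ` is the limit, for `M → ∞`, of the proportion of the `r < 2^M` whose path stays in `[-7, 7]` up to
the time `M` (the parities of `r, …, T^(M-1) r` run through all words of length `M`);
(4) for every `K ≥ 3`: the `n` which reach `1` and are followed by `c n` have density `δ (1+κ)/2`, the even
ones among them have density `δ κ/2`, those among them with `c n` attracted by `{1, 2}` have density
`δ (1+κ)/2`, and the `n` which reach `1` and are not followed by `c n` have density `δ (1-κ)/2`. -/
theorem result : ∃ (δ κ : ℝ) (c : ℕ → ℝ),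
    (∀ n : ℕ, 1 ≤ n → |c n - n| < 1 / 2 ∧ deriv f (c n) = 0 ∧
      ∀ x : ℝ, |x - n| < 1 / 2 → deriv f x = 0 → x = c n) ∧
    (∀ x : ℝ, 0 < x → deriv f x = 0 → ∃ n : ℕ, 1 ≤ n ∧ x = c n) ∧
    0 < δ ∧ HasDensity Reaches δ ∧
    Tendsto (fun M : ℕ => ({r : ℕ | r < 2 ^ M ∧ ∀ k ≤ M, |S r k| ≤ 7}.ncard : ℝ) / 2 ^ M) atTop (𝓝 κ) ∧
    0.916 ≤ κ ∧ κ ≤ 0.945 ∧
    ∀ K : ℝ, 3 ≤ K →
      HasDensity (fun n => Reaches n ∧ Follows K (c n) n) (δ * (1 + κ) / 2) ∧
      HasDensity (fun n => n % 2 = 0 ∧ Reaches n ∧ Follows K (c n) n) (δ * κ / 2) ∧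
      HasDensity (fun n => Reaches n ∧ Follows K (c n) n ∧ Attracts 1 (c n)) (δ * (1 + κ) / 2) ∧
      HasDensity (fun n => Reaches n ∧ ¬ Follows K (c n) n) (δ * (1 - κ) / 2) := by
  classical
  obtain ⟨a, ha, hga⟩ := Pool.Agent.H934R2.Ch.exists_a2
  have hc : ∀ n : ℕ, ∃ c : ℝ, 1 ≤ n → |c - n| < 1 / 2 ∧ deriv f c = 0 ∧
      ∀ x : ℝ, |x - n| < 1 / 2 → deriv f x = 0 → x = c := by
    intro n
    by_cases hn : 1 ≤ n
    · obtain ⟨c, ⟨h1, h2⟩, h3⟩ := Pool.Agent.Y296.CB.crit_unique hn
      exact ⟨c, fun _ => ⟨h1, h2, fun x hx1 hx2 => h3 x ⟨hx1, hx2⟩⟩⟩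
    · exact ⟨0, fun h => absurd h hn⟩
  choose c hc using hc
  have hodd : ∀ n : ℕ, n % 2 = 1 → 7 ≤ n → Reaches n → Attracts 1 (c n) := by
    intro n hn h7 hR
    obtain ⟨h1, h2, h3⟩ := hc n (by omega)
    obtain ⟨x, ⟨hx1, hx2, hx3⟩, -⟩ := Pool.Agent.H934R2.Ch.exists_unique_odd n hn
    have e := h3 x (by rw [abs_lt]; constructor <;> linarith) hx3
    rw [e] at hx1 hx2
    exact (Pool.Agent.Helper29K9.Cham.odd_fate ha hga hn hx1 hx2 h2).2.2 ⟨h7, hR⟩
  obtain ⟨δ, h0, h1, -, h3, -⟩ := Pool.Agent.H499R2.LT.law_one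
  refine ⟨δ, Pool.Agent.Helper29K9.EF.kap, c, hc, ?_, h0, h3, ?_, Pool.Agent.Helper29K9.EF.kap_lb,
    Pool.Agent.Helper29K9.EF.kap_ub, fun K hK => ?_⟩
  · intro x hx h
    obtain ⟨n, hn, h1⟩ := Pool.Agent.H934R2.Ch.crit_class hx h
    rcases h1 with ⟨h1, h2⟩ | ⟨h1, h2⟩
    · refine ⟨n, by omega, (hc n (by omega)).2.2 x ?_ h⟩
      rw [abs_lt]
      constructor <;> linarith
    · refine ⟨n + 1, by omega, (hc (n + 1) (by omega)).2.2 x ?_ h⟩
      push_cast
      rw [abs_lt]
      constructor <;> linarith
  · have hS : ∀ r k, S r k = Pool.Agent.Helper29K9.EF.S r k := by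
      intro r k
      induction k with
      | zero => rfl
      | succ k ih =>
        have e1 : S r (k + 1) = if T^[k] r % 2 = 0 then (S r k - S r k ^ 2) / 4 else
          (9 * S r k + 3 * S r k ^ 2) / 4 := rfl
        have e2 : Pool.Agent.H499R2.ND.Tn = T := by funext n; rfl
        rw [e1, Pool.Agent.Helper29K9.EF.S_succ, e2, ih]
        unfold Pool.Agent.Helper29K9.EF.g0 Pool.Agent.Helper29K9.EF.g1
        split_ifs
        · rfl
        · ring
    refine Pool.Agent.Helper29K9.EF.pK_tendsto.congr fun M => ?_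
    unfold Pool.Agent.Helper29K9.EF.pK
    congr 1
    have e : {r : ℕ | r < 2 ^ M ∧ ∀ k ≤ M, |S r k| ≤ 7} =
        ((Finset.range (2 ^ M)).filter (Pool.Agent.Helper29K9.EF.Al M) : Finset ℕ) := by
      ext r
      rw [Finset.mem_coe, Finset.mem_filter, Finset.mem_range]
      unfold Pool.Agent.Helper29K9.EF.Al
      simp only [Set.mem_ofPred_eq, hS]
    rw [e, Set.ncard_coe_finset]
  · exact Pool.Agent.Helper29K9.EF.main (fun n hn => ⟨(hc n hn).1, (hc n hn).2.1⟩) hodd h0 h1 h3 hK

end Pool.Agent.Results.MP_a247fa_nt.ExactFollowing
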