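import Pool.Agent.Helper29K9.Cham.Exc
import Pool.Agent.Results.MP_a247fa_nt.ExceptionalCycles

/-!
# Attracting cycles of Chamberland's map of period at most nine

`f` is Chamberland's real extension of the `3x+1` map `T`.  The two known cycles `A₁ = {1, 2}` and
`A₂ = {a, f a}` are the only attracting cycles in `(0,∞)` of period at most `9`, and the only attracting
cycles contained in `(0, 241]`.

Reason: let an attracting cycle of period `p` be neither `A₁`, nor `A₂`, nor just above a cycle of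
integers, and let `y` be a point of it with `|f' y| < 1`.  Then `y` is just below an even integer `n`, and
the orbit of `y` stays just below the `T`-orbit of `n` until the end of the first run of five
consecutive odd terms of this orbit; this run ends before the time `p`.  (Four consecutive odd steps are
not enough to leave: the deviation after them is caught at the next even step, where it is squared, and
an overshoot would be caught by the trap intervals above the integers.)
-/

set_option autoImplicit false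

namespace Pool.Agent.Results.MP_a247fa_nt.SmallPeriods

open Pool.Agent.Helper29K9.Cham

/-- Chamberland's map. -/
noncomputable def f (x : ℝ) : ℝ := x + 1 / 4 - (2 * x + 1) / 4 * Real.cos (Real.pi * x)

/-- The `3x+1` map. -/
def T (n : ℕ) : ℕ := if n % 2 = 0 then n / 2 else (3 * n + 1) / 2

/-- `x` is a point of an attracting cycle of `f` contained in `(0,∞)`. -/
def AttractingPoint (x : ℝ) : Prop :=
  0 < x ∧ 0 < Function.minimalPeriod f x ∧ |deriv (f^[Function.minimalPeriod f x]) x| < 1

/-- The cycle of `x` lies just above a cycle of `T` other than `{1, 2}`. -/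
def AboveIntegers (x : ℝ) : Prop :=
  ∃ n : ℕ, 3 ≤ n ∧ T^[Function.minimalPeriod f x] n = n ∧ ∀ k : ℕ, (T^[k] n : ℝ) ≤ f^[k] x ∧
    f^[k] x ≤ T^[k] n + 11 / (10 * (2 * (T^[k] n : ℝ) + 1))

/-- `y` is just below an even integer `n ≥ 30` whose `T`-orbit has five consecutive odd terms, at the
times `s + 1, …, s + 5` with `s + 6 < p` and after an even term at the time `s`, and the `f`-orbit of `y`
stays just below the `T`-orbit of `n` up to the time `s + 6`. -/
def LongRun (p : ℕ) (y : ℝ) : Prop :=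
  ∃ n s : ℕ, n % 2 = 0 ∧ 30 ≤ n ∧ y < n ∧ (n : ℝ) - y < 1 / (4 * n + 2) ∧
    s + 6 < p ∧ T^[s] n % 2 = 0 ∧ (∀ j : ℕ, 1 ≤ j → j ≤ 5 → T^[s + j] n % 2 = 1) ∧
    (∀ j : ℕ, j ≤ s + 5 → f^[j] y < T^[j] n ∧ (T^[j] n : ℝ) - f^[j] y < 8 / (7 * (2 * (T^[j] n : ℝ) + 1))) ∧
    f^[s + 6] y < T^[s + 6] n ∧ (T^[s + 6] n : ℝ) - f^[s + 6] y < 9 / (2 * (2 * (T^[s + 6] n : ℝ) + 1))

theorem ts_bound {h : ℕ} {e c d : ℝ} (he : 0 ≤ e) (ht : Pool.Agent.Y296.CB.ts h e ≤ c)
    (hcd : c * 4 < 9.8695 * d) : e < d / (2 * (h : ℝ) + 1) := by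
  rw [lt_div_iff₀ (by positivity)]
  unfold Pool.Agent.Y296.CB.ts at ht
  have h3 := Pool.Agent.H934R2.Ch.pi_sq_gt
  have h4 : 0 ≤ (2 * (h : ℝ) + 1) * e := mul_nonneg (by positivity) he
  nlinarith

/-- **Main theorem.** The number `a` is the point `1.1925...` of the second known attracting cycle.
(1) The two known cycles `{1, 2}`, `{a, f a}` are the only attracting cycles in `(0,∞)` of period at most
`9`. (2) They are the only attracting cycles contained in `(0, 241]`. (3) Every other attracting cycle in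
`(0,∞)` lies just above a cycle of `T` other than `{1, 2}`, or it has points `y` with `|f' y| < 1` and at
all of them a long run of odd terms occurs. -/
theorem result :
    ∃ a : ℝ, 1.183 ≤ a ∧ a ≤ 1.2 ∧ f (f a) = a ∧
      (∀ x : ℝ, AttractingPoint x → Function.minimalPeriod f x ≤ 9 →
        x = 1 ∨ x = 2 ∨ x = a ∨ x = f a) ∧
      (∀ x : ℝ, AttractingPoint x → (∀ k : ℕ, f^[k] x ≤ 241) → x = 1 ∨ x = 2 ∨ x = a ∨ x = f a) ∧
      ∀ x : ℝ, AttractingPoint x → (x = 1 ∨ x = 2 ∨ x = a ∨ x = f a) ∨ AboveIntegers x ∨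
        ((∃ k : ℕ, |deriv f (f^[k] x)| < 1) ∧
          ∀ k : ℕ, |deriv f (f^[k] x)| < 1 → LongRun (Function.minimalPeriod f x) (f^[k] x)) := by
  obtain ⟨a, ha1, ha2, hfa, huniq, h79, hcls⟩ := ExceptionalCycles.result
  obtain ⟨a', ha', hga'⟩ := Pool.Agent.H934R2.Ch.exists_a2
  have haa : a' = a := by
    refine huniq a' ?_ ?_ hga'
    · linarith [ha'.1]
    · linarith [ha'.2]
  subst haa
  have main : ∀ x : ℝ, AttractingPoint x → (x = 1 ∨ x = 2 ∨ x = a' ∨ x = f a') ∨
      (AboveIntegers x ∧ 9 < Function.minimalPeriod f x ∧ ∃ k : ℕ, 241 < f^[k] x) ∨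
        ((∃ k : ℕ, |deriv f (f^[k] x)| < 1) ∧
          ∀ k : ℕ, |deriv f (f^[k] x)| < 1 → LongRun (Function.minimalPeriod f x) (f^[k] x) ∧
            9 < Function.minimalPeriod f x ∧ ∃ j : ℕ, 241 < f^[j] (f^[k] x)) := by
    intro x hx
    rcases hcls x hx with h | h | ⟨h1, h2⟩
    · exact Or.inl h
    · right; left
      obtain ⟨n, hn3, hT, hS⟩ := h
      have hp : 1 ≤ Function.minimalPeriod f x := hx.2.1
      refine ⟨⟨n, hn3, hT, hS⟩, ?_, 0, ?_⟩
      · by_contra h9
        exact no_cycle hn3 hp (not_lt.1 h9) hT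
      · have h242 : 242 < n := by
          by_contra h9
          exact cyc_small hn3 (not_lt.1 h9) hp hT
        have h3 := (hS 0).1
        simp only [Function.iterate_zero, id] at h3 ⊢
        have h4 : (243 : ℝ) ≤ n := by exact_mod_cast h242
        linarith
    · by_cases hknown : x = 1 ∨ x = 2 ∨ x = a' ∨ x = f a'
      · exact Or.inl hknown
      right; right
      refine ⟨h1, fun k hk => ?_⟩
      obtain ⟨n, j, hn2, hn30, hyn, hy2, -⟩ := h2 k hk
      set p := Function.minimalPeriod f x with hp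
      have hp0 : 0 < p := hx.2.1
      have hxp : f^[p] x = x := Function.iterate_minimalPeriod
      have hper : f^[p] (f^[k] x) = f^[k] x := by
        rw [← Function.iterate_add_apply, add_comm, Function.iterate_add_apply, hxp]
      have hnR : (30 : ℝ) ≤ n := by exact_mod_cast hn30
      have hD : ∀ i, f^[i] (f^[k] x) ∉ Pool.Agent.H934R2.Ch.D := by
        intro i
        rw [← Function.iterate_add_apply]
        rcases Pool.Agent.H934R2.Ch.trichotomy ha' hga' (y := x) hx with h | ⟨m, hm, hmT, hmem⟩ | ⟨h, -⟩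
        · exact absurd h hknown
        · exfalso
          -- the orbit of `x` shadows integers from above
          obtain ⟨c1, c2⟩ := Pool.Agent.H934R2.Ch.shadow (n := m) (by omega) hmem k
          have hb : Pool.Agent.H934R2.Ch.b (T^[k] m) ≤ 5 / 18 :=
            Pool.Agent.H934R2.Ch.b_le (Pool.Agent.H934R2.Ch.T_iter_pos (by omega) k)
          have h4 : 1 / (4 * (n : ℝ) + 2) ≤ 0.01 := by
            rw [div_le_iff₀ (by positivity)]; linarith
          have c1' : ((T^[k] m : ℕ) : ℝ) ≤ f^[k] x := c1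
          have c2' : f^[k] x ≤ ((T^[k] m : ℕ) : ℝ) + Pool.Agent.H934R2.Ch.b (T^[k] m) := c2
          have hyn' : f^[k] x < n := hyn
          have hy2' : (n : ℝ) - f^[k] x < 1 / (4 * n + 2) := hy2
          have d1 : ((T^[k] m : ℕ) : ℝ) < n := by linarith
          have d2 : (n : ℝ) < ((T^[k] m : ℕ) : ℝ) + 1 := by linarith
          have d3 : T^[k] m < n := by exact_mod_cast d1
          have d4 : n < T^[k] m + 1 := by exact_mod_cast d2
          omega
        · exact h (i + k)
      refine ⟨?_, nine hn2 hn30 hyn hy2 hp0 hper hD, above_241 hn2 hn30 hyn hy2 hp0 hper hD⟩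
      obtain ⟨s, hs⟩ := run5_of_exc hn2 hn30 hyn hy2 hp0 hper hD
      obtain ⟨r1, r2, r3, r4, r5, r6⟩ := hs
      refine ⟨n, s, hn2, hn30, hyn, hy2, r1, r2, ?_, ?_, r5, ?_⟩
      · intro j hj1 hj5
        obtain ⟨i, rfl⟩ : ∃ i, j = i + 1 := ⟨j - 1, by omega⟩
        have := r3 i (by omega)
        rw [show s + (i + 1) = s + 1 + i by ring]
        exact this
      · intro j hj
        have e7 : (8 : ℝ) / (7 * (2 * (T^[j] n : ℝ) + 1)) = 8 / 7 / (2 * (T^[j] n : ℝ) + 1) := by
          field_simp
        rw [e7]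
        rcases Nat.eq_zero_or_pos j with rfl | hj0
        · have ht := ts_start hyn hy2
          exact ⟨hyn, ts_bound (sub_nonneg.2 hyn.le) ht (by norm_num)⟩
        · obtain ⟨q1, q2⟩ := r4 j hj0 (by omega)
          exact ⟨q1, ts_bound (sub_nonneg.2 q1.le) q2 (by norm_num)⟩
      · have e9 : (9 : ℝ) / (2 * (2 * (T^[s + 6] n : ℝ) + 1)) = 9 / 2 / (2 * (T^[s + 6] n : ℝ) + 1) := by
          field_simp
        rw [e9]
        exact ts_bound (sub_nonneg.2 r5.le) r6 (by norm_num)
  refine ⟨a', ha1, ha2, hfa, ?_, ?_, ?_⟩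
  · intro x hx hp
    rcases main x hx with h | ⟨-, h, -⟩ | ⟨⟨k, hk⟩, h⟩
    · exact h
    · omega
    · have := (h k hk).2.1
      omega
  · intro x hx hb
    rcases main x hx with h | ⟨-, -, k, hk⟩ | ⟨⟨k, hk⟩, h⟩
    · exact h
    · exfalso; linarith [hb k]
    · exfalso
      obtain ⟨-, -, j, hj⟩ := h k hk
      rw [← Function.iterate_add_apply] at hj
      linarith [hb (j + k)]
  · intro x hx
    rcases main x hx with h | ⟨h, -⟩ | ⟨h1, h⟩
    · exact Or.inl h
    · exact Or.inr (Or.inl h)
    · exact Or.inr (Or.inr ⟨h1, fun k hk => (h k hk).1⟩)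

end Pool.Agent.Results.MP_a247fa_nt.SmallPeriods
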